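import Pool.Agent.R349.SNDefs

set_option autoImplicit false

/-!
# MP_d3d931_al, Q2: a left and right nilpotent semigroup which is not supernilpotent

The notions used are those of the starting file `Pool.Agent.R349.SNDefs`: `comm α β` is the higher
commutator `[α_1, …, α_m, β]`, `leftS S d` is `[1, [1, …, [1, 1] … ]]` and `rightS S d` is
`[ … [[1, 1], 1], …, 1]`, each with `d + 1` copies of the total congruence, and `Supernilpotent S d`
says that the commutator of `d + 1` copies of the total congruence is trivial.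

The semigroup `W` consists of the words in three letters `x, y, b`. Two words of length at least two are
identified if they have the same numbers of letters `x, y, b`, both or none of them begins with `b`, and
both or none of them ends with `b`; the only exceptions are the pairs `x b^k y`, `y b^k x` where `k` is a
power of two: these two words are different. Forgetting the exceptions one gets a congruence `σ` whose
quotient is a subsemigroup of the product of `ℕ^3`, a left zero band and a right zero band, so `[1, 1] ≤ σ`.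
A product of at least two elements depends only on their classes modulo `σ`, so `[1, σ]` and `[σ, 1]` are
trivial. The words `x b^K y` and `y b^K x`, where `K = c + Σ (1 + ε_i)`, show that the term condition for
`n + 1` copies of the total congruence fails, for every `n`.
-/

namespace Pool.Agent.Results.MP_d3d931_al.NilpotentNotSupernilpotent

open Pool.Agent.R349.SN

/-- The number `k` is a power of two. -/
def D (k : ℕ) : Prop := ∃ m : ℕ, k = 2 ^ m

/-- Words in `x, y, b`: the numbers of letters `x`, `y`, `b`; whether the first letter is `b`; whether the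
last letter is `b`; whether it is an exceptional word which begins with `y`. -/
@[ext] structure W where
  i : ℕ
  j : ℕ
  k : ℕ
  s : Bool
  t : Bool
  e : Prop
  hs : s = false → 1 ≤ i + j
  ht : t = false → 1 ≤ i + j

instance : Mul W where
  mul a c :=
    { i := a.i + c.i
      j := a.j + c.j
      k := a.k + c.k
      s := a.s
      t := c.t
      e := a.i + c.i = 1 ∧ a.j + c.j = 1 ∧ D (a.k + c.k) ∧ a.s = false ∧ c.t = false ∧ a.j = 1
      hs := fun h => by have := a.hs h; omega
      ht := fun h => by have := c.ht h; omega }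

theorem mul_i (a c : W) : (a * c).i = a.i + c.i := rfl
theorem mul_j (a c : W) : (a * c).j = a.j + c.j := rfl
theorem mul_k (a c : W) : (a * c).k = a.k + c.k := rfl
theorem mul_s (a c : W) : (a * c).s = a.s := rfl
theorem mul_t (a c : W) : (a * c).t = c.t := rfl
theorem mul_e (a c : W) : (a * c).e =
    (a.i + c.i = 1 ∧ a.j + c.j = 1 ∧ D (a.k + c.k) ∧ a.s = false ∧ c.t = false ∧ a.j = 1) := rfl

instance : Semigroup W where
  mul_assoc a b c := by
    apply W.ext
    · simp only [mul_i, add_assoc]
    · simp only [mul_j, add_assoc]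
    · simp only [mul_k, add_assoc]
    · simp only [mul_s]
    · simp only [mul_t]
    · simp only [mul_e, mul_i, mul_j, mul_k, mul_s, mul_t, add_assoc, eq_iff_iff]
      constructor
      · rintro ⟨h1, h2, h3, h4, h5, h6⟩
        have ha := a.hs h4
        have hc := c.ht h5
        exact ⟨h1, h2, h3, h4, h5, by omega⟩
      · rintro ⟨h1, h2, h3, h4, h5, h6⟩
        have ha := a.hs h4
        have hc := c.ht h5
        exact ⟨h1, h2, h3, h4, h5, by omega⟩

/-- Products do not depend on the exceptional bits of the factors. -/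
theorem mul_eq {a a' c c' : W} (h1 : a.i = a'.i) (h2 : a.j = a'.j) (h3 : a.k = a'.k) (h4 : a.s = a'.s)
    (h1' : c.i = c'.i) (h2' : c.j = c'.j) (h3' : c.k = c'.k) (h5' : c.t = c'.t) : a * c = a' * c' := by
  apply W.ext
  · rw [mul_i, mul_i, h1, h1']
  · rw [mul_j, mul_j, h2, h2']
  · rw [mul_k, mul_k, h3, h3']
  · rw [mul_s, mul_s, h4]
  · rw [mul_t, mul_t, h5']
  · rw [mul_e, mul_e, h1, h2, h3, h4, h1', h2', h3', h5']

/-- The congruence which forgets the exceptional bit. -/
def σ : Con W where
  r a c := a.i = c.i ∧ a.j = c.j ∧ a.k = c.k ∧ a.s = c.s ∧ a.t = c.t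
  iseqv :=
    ⟨fun _ => ⟨rfl, rfl, rfl, rfl, rfl⟩,
      fun ⟨h1, h2, h3, h4, h5⟩ => ⟨h1.symm, h2.symm, h3.symm, h4.symm, h5.symm⟩,
      fun ⟨h1, h2, h3, h4, h5⟩ ⟨g1, g2, g3, g4, g5⟩ =>
        ⟨h1.trans g1, h2.trans g2, h3.trans g3, h4.trans g4, h5.trans g5⟩⟩
  mul' := by
    rintro a a' c c' ⟨h1, h2, h3, h4, h5⟩ ⟨g1, g2, g3, g4, g5⟩
    rw [mul_eq h1 h2 h3 h4 g1 g2 g3 g5]
    exact ⟨rfl, rfl, rfl, rfl, rfl⟩

theorem σ_iff {a c : W} :
    σ a c ↔ a.i = c.i ∧ a.j = c.j ∧ a.k = c.k ∧ a.s = c.s ∧ a.t = c.t := Iff.rfl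

theorem σ_mul {a a' c c' : W} (h : σ a a') (g : σ c c') : a * c = a' * c' := by
  obtain ⟨h1, h2, h3, h4, h5⟩ := σ_iff.1 h
  obtain ⟨g1, g2, g3, g4, g5⟩ := σ_iff.1 g
  exact mul_eq h1 h2 h3 h4 g1 g2 g3 g5

/-- The row with all entries `0`. -/
abbrev z : Fin 1 → Bool := fun _ => false
/-- The row with all entries `1`. -/
abbrev o : Fin 1 → Bool := fun _ => true

theorem z_ne : z ≠ (fun _ => true) := fun h => Bool.false_ne_true (congrFun h 0)

/-- `[1, 1] ≤ σ`. -/
theorem cen1 : Cen (fun _ : Fin 1 => (⊤ : Con W)) ⊤ σ := by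
  intro x hx hrow
  have key : ((x o false).i + (x z true).i = (x z false).i + (x o true).i ∧
      (x o false).j + (x z true).j = (x z false).j + (x o true).j ∧
      (x o false).k + (x z true).k = (x z false).k + (x o true).k) ∧
      ((x z false).s = (x z true).s → (x o false).s = (x o true).s) ∧
      ((x z false).t = (x z true).t → (x o false).t = (x o true).t) := by
    clear hrow
    induction hx using Subsemigroup.closure_induction with
    | mem x hx =>
      rcases hx with ⟨i, a, b, -, rfl⟩ | ⟨a, b, -, rfl⟩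
      · refine ⟨⟨?_, ?_, ?_⟩, fun _ => rfl, fun _ => rfl⟩
        · simp only [z, o, if_true, Bool.false_eq_true, if_false]
          exact Nat.add_comm _ _
        · simp only [z, o, if_true, Bool.false_eq_true, if_false]
          exact Nat.add_comm _ _
        · simp only [z, o, if_true, Bool.false_eq_true, if_false]
          exact Nat.add_comm _ _
      · exact ⟨⟨rfl, rfl, rfl⟩, id, id⟩
    | mul x y _ _ ihx ihy =>
      obtain ⟨⟨h1, h2, h3⟩, h4, h5⟩ := ihx
      obtain ⟨⟨g1, g2, g3⟩, g4, g5⟩ := ihy
      simp only [Pi.mul_apply, mul_i, mul_j, mul_k, mul_s, mul_t]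
      exact ⟨⟨by omega, by omega, by omega⟩, h4, g5⟩
  obtain ⟨⟨h1, h2, h3⟩, h4, h5⟩ := key
  obtain ⟨r1, r2, r3, r4, r5⟩ := σ_iff.1 (hrow z z_ne)
  show σ (x o false) (x o true)
  exact σ_iff.2 ⟨by omega, by omega, by omega, h4 r4, h5 r5⟩

/-- `[1, σ]` is trivial. -/
theorem cen2 : Cen (fun _ : Fin 1 => (⊤ : Con W)) σ ⊥ := by
  intro x hx hrow
  have key : (∀ ε, σ (x ε false) (x ε true)) ∧ (x z false = x z true → x o false = x o true) := by
    clear hrow
    induction hx using Subsemigroup.closure_induction with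
    | mem x hx =>
      rcases hx with ⟨i, a, b, -, rfl⟩ | ⟨a, b, hab, rfl⟩
      · exact ⟨fun ε => σ.refl _, fun _ => rfl⟩
      · simp only [if_true, Bool.false_eq_true, if_false]
        exact ⟨fun _ => hab, id⟩
    | mul x y _ _ ihx ihy =>
      have h : ∀ ε, (x * y) ε false = (x * y) ε true := fun ε => σ_mul (ihx.1 ε) (ihy.1 ε)
      exact ⟨fun ε => by rw [h ε]; exact σ.refl _, fun _ => h o⟩
  exact key.2 (hrow z z_ne)

/-- `[σ, 1]` is trivial. -/
theorem cen3 : Cen (fun _ : Fin 1 => σ) (⊤ : Con W) ⊥ := by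
  intro x hx hrow
  have key : (∀ j, σ (x z j) (x o j)) ∧ (x z false = x z true → x o false = x o true) := by
    clear hrow
    induction hx using Subsemigroup.closure_induction with
    | mem x hx =>
      rcases hx with ⟨i, a, b, hab, rfl⟩ | ⟨a, b, -, rfl⟩
      · refine ⟨fun j => ?_, fun _ => rfl⟩
        simpa only [z, o, if_true, Bool.false_eq_true, if_false] using hab
      · exact ⟨fun _ => σ.refl _, id⟩
    | mul x y _ _ ihx ihy =>
      have h : ∀ j, (x * y) z j = (x * y) o j := fun j => σ_mul (ihx.1 j) (ihy.1 j)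
      exact ⟨fun j => by rw [h j]; exact σ.refl _, fun h' => by rw [← h, ← h]; exact h'⟩
  exact key.2 (hrow z z_ne)

/-- The letter `x`. -/
def X : W := ⟨1, 0, 0, false, false, False, fun _ => by omega, fun _ => by omega⟩
/-- The letter `y`. -/
def Y : W := ⟨0, 1, 0, false, false, False, fun _ => by omega, fun _ => by omega⟩
/-- The word `b ^ k`. -/
def B (k : ℕ) : W := ⟨0, 0, k, true, true, False, by simp, by simp⟩

theorem B_mul (k l : ℕ) : B k * B l = B (k + l) := by
  apply W.ext
  · rfl
  · rfl
  · rfl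
  · rfl
  · rfl
  · rw [mul_e]
    simp [B]

theorem mid {n : ℕ} (c : ℕ) (s : Finset (Fin n)) :
    ∃ y ∈ MM (S := W) (fun _ : Fin n => ⊤) ⊤, ∀ (ε : Fin n → Bool) (j : Bool),
      y ε j = B (c + ∑ i ∈ s, (if ε i = true then 2 else 1)) := by
  classical
  induction s using Finset.induction_on with
  | empty =>
    refine ⟨fun _ _ => B c, Subsemigroup.subset_closure (Or.inr ⟨B c, B c, trivial, ?_⟩), ?_⟩
    · funext ε j
      split_ifs <;> rfl
    · intro ε j
      simp
  | insert i s hi ih =>
    obtain ⟨y, hy, e⟩ := ih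
    refine ⟨y * (fun ε _ => if ε i = true then B 2 else B 1), (MM _ _).mul_mem hy
      (Subsemigroup.subset_closure (Or.inl ⟨i, B 1, B 2, trivial, rfl⟩)), ?_⟩
    intro ε j
    rw [Pi.mul_apply, Pi.mul_apply, e, Finset.sum_insert hi]
    split_ifs
    · rw [B_mul]; congr 1; omega
    · rw [B_mul]; congr 1; omega

theorem not_tc (n : ℕ) : ¬ TC n W := by
  intro h
  have hn : n < 2 ^ (n + 1) := lt_trans (Nat.lt_succ_self n) Nat.lt_two_pow_self
  have h2 : 2 ^ (n + 2) = 2 * 2 ^ (n + 1) := by rw [pow_succ]; ring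
  obtain ⟨y, hy, e⟩ := mid (n := n) (2 ^ (n + 2) - 2 * n) Finset.univ
  have hval : ∀ k : ℕ, ((X * B k) * Y = (Y * B k) * X) ↔ ¬ D k := by
    intro k
    constructor
    · intro h' hk
      have h3 := congrArg W.e h'
      rw [mul_e, mul_e] at h3
      have h4 := h3.symm.mp ⟨by simp [mul_i, X, Y, B], by simp [mul_j, X, Y, B],
        by simpa [mul_k, X, Y, B] using hk, rfl, rfl, by simp [mul_j, Y, B]⟩
      have h5 := h4.2.2.2.2.2
      simp [mul_j, X, B] at h5
    · intro hk
      apply W.ext
      · simp [mul_i, X, Y, B]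
      · simp [mul_j, X, Y, B]
      · simp [mul_k, X, Y, B]
      · rfl
      · rfl
      · rw [mul_e, mul_e, eq_iff_iff]
        constructor
        · intro h'
          exact absurd (by simpa [mul_k, X, Y, B] using h'.2.2.1) hk
        · intro h'
          exact absurd (by simpa [mul_k, X, Y, B] using h'.2.2.1) hk
  have hx : (fun (_ : Fin n → Bool) (j : Bool) => if j = true then Y else X) * y *
      (fun (_ : Fin n → Bool) (j : Bool) => if j = true then X else Y) ∈
      MM (S := W) (fun _ : Fin n => ⊤) ⊤ :=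
    (MM _ _).mul_mem ((MM _ _).mul_mem
      (Subsemigroup.subset_closure (Or.inr ⟨X, Y, trivial, rfl⟩)) hy)
      (Subsemigroup.subset_closure (Or.inr ⟨Y, X, trivial, rfl⟩))
  have := h _ hx ?_
  · simp only [Pi.mul_apply, if_true, Bool.false_eq_true, if_false, e] at this
    rw [hval] at this
    apply this
    refine ⟨n + 2, ?_⟩
    simp only [Finset.sum_const, Finset.card_univ, Fintype.card_fin, smul_eq_mul]
    omega
  · intro ε hε
    simp only [Pi.mul_apply, if_true, Bool.false_eq_true, if_false, e]
    rw [hval]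
    rintro ⟨m, hm⟩
    obtain ⟨i, hi⟩ := Function.ne_iff.1 hε
    have hi' : ε i = false := by simpa using hi
    have hlow : n ≤ ∑ i : Fin n, (if ε i = true then 2 else 1) := by
      calc n = ∑ _i : Fin n, 1 := by simp
        _ ≤ _ := Finset.sum_le_sum (fun i _ => by split_ifs <;> omega)
    have hup : ∑ i : Fin n, (if ε i = true then 2 else 1) < 2 * n := by
      calc ∑ i : Fin n, (if ε i = true then 2 else 1) < ∑ _i : Fin n, 2 := by
            apply Finset.sum_lt_sum
            · intro i _; split_ifs <;> omega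
            · exact ⟨i, Finset.mem_univ _, by rw [hi']; simp⟩
        _ = 2 * n := by simp [mul_comm]
    have hm1 : 2 ^ (n + 1) < 2 ^ m := by omega
    have hm2 : 2 ^ m < 2 ^ (n + 2) := by omega
    have k1 := (Nat.pow_lt_pow_iff_right (by norm_num : 1 < 2)).1 hm1
    have k2 := (Nat.pow_lt_pow_iff_right (by norm_num : 1 < 2)).1 hm2
    omega

/-- **Q2 of MP_d3d931_al has a negative answer.** There is a semigroup which is left `2`-nilpotent and
right `2`-nilpotent, but not `d`-supernilpotent for any `d`. -/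
theorem result : ∃ (S : Type) (_ : Semigroup S),
    leftS S 2 = ⊥ ∧ rightS S 2 = ⊥ ∧ ∀ d : ℕ, ¬ Supernilpotent S d := by
  refine ⟨W, inferInstance, ?_, ?_, ?_⟩
  · exact eq_bot_iff.2 (leftS_step (leftS_step (d := 0) (le_refl _) cen1) cen2)
  · exact eq_bot_iff.2 (rightS_step (rightS_step (d := 0) (le_refl _) cen1) cen3)
  · intro d hd
    exact not_tc d ((supernilpotent_iff d).1 hd)

end Pool.Agent.Results.MP_d3d931_al.NilpotentNotSupernilpotent
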